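import Mathlib

set_option autoImplicit false

/-!
Linear combinations of clique densities: a Motzkin–Straus argument shows that a weighted sum of
clique counts of a weighted graph is at most its largest value at a balanced complete multipartite
graph.
-/

namespace Pool.Agent.Y430.CH

open Finset

section poly

variable {V : Type*} [Fintype V] [DecidableEq V]

/-- weighted sum over sets of vertices -/
noncomputable def Phi (w : Finset V → ℝ) (y : V → ℝ) : ℝ :=
  ∑ K ∈ (univ : Finset V).powerset, w K * ∏ v ∈ K, y v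

/-- the vertices other than `u`, `v` -/
def rest (u v : V) : Finset V := (univ.erase u).erase v

lemma u_notin (u v : V) : u ∉ rest u v := by simp [rest]
lemma v_notin (u v : V) : v ∉ rest u v := by simp [rest]

lemma univ_eq {u v : V} (huv : u ≠ v) : (univ : Finset V) = insert u (insert v (rest u v)) := by
  ext x
  simp only [mem_univ, mem_insert, rest, mem_erase, true_iff, and_true]
  tauto

noncomputable def coef (w : Finset V → ℝ) (y : V → ℝ) (u v : V) (A : Finset V) : ℝ :=
  ∑ L ∈ (rest u v).powerset, w (A ∪ L) * ∏ x ∈ L, y x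

lemma Phi_split (w : Finset V → ℝ) (y y' : V → ℝ) {u v : V} (huv : u ≠ v)
    (h : ∀ x, x ≠ u → x ≠ v → y' x = y x) :
    Phi w y' = coef w y u v ∅ + coef w y u v {u} * y' u + coef w y u v {v} * y' v +
      coef w y u v {u, v} * (y' u * y' v) := by
  have hv : v ∉ rest u v := v_notin u v
  have hu : u ∉ insert v (rest u v) := by
    rw [mem_insert, not_or]
    exact ⟨huv, u_notin u v⟩
  unfold Phi coef
  rw [univ_eq huv, sum_powerset_insert hu, sum_powerset_insert hv, sum_powerset_insert hv,
    Finset.sum_mul, Finset.sum_mul, Finset.sum_mul]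
  have hprod : ∀ L ∈ (rest u v).powerset, ∏ x ∈ L, y' x = ∏ x ∈ L, y x := by
    intro L hL
    apply prod_congr rfl
    intro x hx
    have hxr := mem_powerset.1 hL hx
    simp only [rest, mem_erase, mem_univ, and_true] at hxr
    exact h x hxr.2 hxr.1
  have e1 : ∑ L ∈ (rest u v).powerset, w L * ∏ x ∈ L, y' x =
      ∑ L ∈ (rest u v).powerset, w (∅ ∪ L) * ∏ x ∈ L, y x := by
    apply sum_congr rfl
    intro L hL
    rw [hprod L hL, empty_union]
  have e2 : ∑ L ∈ (rest u v).powerset, w (insert v L) * ∏ x ∈ insert v L, y' x =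
      ∑ L ∈ (rest u v).powerset, w ({v} ∪ L) * (∏ x ∈ L, y x) * y' v := by
    apply sum_congr rfl
    intro L hL
    have hvL : v ∉ L := fun hh => hv (mem_powerset.1 hL hh)
    rw [prod_insert hvL, hprod L hL, ← insert_eq]
    ring
  have e3 : ∑ L ∈ (rest u v).powerset, w (insert u L) * ∏ x ∈ insert u L, y' x =
      ∑ L ∈ (rest u v).powerset, w ({u} ∪ L) * (∏ x ∈ L, y x) * y' u := by
    apply sum_congr rfl
    intro L hL
    have huL : u ∉ L := fun hh => u_notin u v (mem_powerset.1 hL hh)
    rw [prod_insert huL, hprod L hL, ← insert_eq]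
    ring
  have e4 : ∑ L ∈ (rest u v).powerset, w (insert u (insert v L)) * ∏ x ∈ insert u (insert v L), y' x =
      ∑ L ∈ (rest u v).powerset, w ({u, v} ∪ L) * (∏ x ∈ L, y x) * (y' u * y' v) := by
    apply sum_congr rfl
    intro L hL
    have hvL : v ∉ L := fun hh => hv (mem_powerset.1 hL hh)
    have huL : u ∉ insert v L := by
      rw [mem_insert, not_or]
      exact ⟨huv, fun hh => u_notin u v (mem_powerset.1 hL hh)⟩
    rw [prod_insert huL, prod_insert hvL, hprod L hL, insert_union, ← insert_eq]
    ring
  rw [e1, e2, e3, e4]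
  ring

/-- move the weight `h` from `v` to `u` -/
def move (y : V → ℝ) (u v : V) (h : ℝ) : V → ℝ :=
  fun x => if x = u then y u + h else if x = v then y v - h else y x

lemma move_u (y : V → ℝ) (u v : V) (h : ℝ) : move y u v h u = y u + h := by simp [move]

lemma move_v (y : V → ℝ) {u v : V} (huv : u ≠ v) (h : ℝ) : move y u v h v = y v - h := by
  simp [move, huv.symm]

lemma move_other (y : V → ℝ) (u v : V) (h : ℝ) (x : V) (hu : x ≠ u) (hv : x ≠ v) :
    move y u v h x = y x := by simp [move, hu, hv]

lemma move_mem {y : V → ℝ} (hy : y ∈ stdSimplex ℝ V) {u v : V} (huv : u ≠ v) {h : ℝ}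
    (h1 : -y u ≤ h) (h2 : h ≤ y v) : move y u v h ∈ stdSimplex ℝ V := by
  constructor
  · intro x
    unfold move
    split_ifs with hu hv
    · linarith
    · linarith
    · exact hy.1 x
  · have hs := hy.2
    rw [univ_eq huv] at hs ⊢
    have hu : u ∉ insert v (rest u v) := by
      rw [mem_insert, not_or]
      exact ⟨huv, u_notin u v⟩
    rw [sum_insert hu, sum_insert (v_notin u v)] at hs ⊢
    rw [move_u, move_v y huv]
    have : ∑ x ∈ rest u v, move y u v h x = ∑ x ∈ rest u v, y x := by
      apply sum_congr rfl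
      intro x hx
      simp only [rest, mem_erase, mem_univ, and_true] at hx
      exact move_other y u v h x hx.2 hx.1
    rw [this]
    linarith

lemma Phi_move (w : Finset V → ℝ) (y : V → ℝ) {u v : V} (huv : u ≠ v) (h : ℝ) :
    Phi w (move y u v h) = Phi w y + h * (coef w y u v {u} - coef w y u v {v}) +
      coef w y u v {u, v} * (h * (y v - y u - h)) := by
  rw [Phi_split w y (move y u v h) huv (move_other y u v h), Phi_split w y y huv (fun _ _ _ => rfl),
    move_u, move_v y huv]
  ring

lemma continuous_Phi (w : Finset V → ℝ) : Continuous (Phi w) := by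
  unfold Phi
  fun_prop

/-- the support -/
noncomputable def supp (y : V → ℝ) : Finset V := univ.filter (fun x => y x ≠ 0)

lemma mem_supp {y : V → ℝ} {x : V} : x ∈ supp y ↔ y x ≠ 0 := by simp [supp]

/-- moving all weight away from a vertex of the support decreases the support -/
lemma supp_move_lt {y : V → ℝ} {u v : V} (huv : u ≠ v) (hu : y u ≠ 0) (hv : y v ≠ 0) :
    (supp (move y u v (y v))).card < (supp y).card := by
  apply card_lt_card
  rw [ssubset_iff_of_subset]
  · refine ⟨v, mem_supp.2 hv, ?_⟩
    rw [mem_supp, move_v y huv]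
    simp
  · intro x hx
    rw [mem_supp] at hx ⊢
    by_cases h1 : x = u
    · rw [h1]; exact hu
    by_cases h2 : x = v
    · rw [h2]; exact hv
    rwa [move_other y u v _ x h1 h2] at hx

end poly

section graph

variable {V : Type*} [Fintype V] [DecidableEq V]

open Classical in
/-- the weights of a linear combination of clique counts -/
noncomputable def wt (G : SimpleGraph V) (g : ℕ → ℝ) (K : Finset V) : ℝ :=
  if G.IsClique (K : Set V) then g K.card else 0

/-- the value at the balanced complete `k`-partite graph -/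
noncomputable def bal (g : ℕ → ℝ) (k : ℕ) : ℝ := ∑ j ∈ range (k + 1), (k.choose j : ℝ) * (g j / (k : ℝ) ^ j)

lemma coef_nonadj (G : SimpleGraph V) (g : ℕ → ℝ) (y : V → ℝ) {u v : V} (huv : u ≠ v)
    (h : ¬ G.Adj u v) : coef (wt G g) y u v {u, v} = 0 := by
  unfold coef
  apply sum_eq_zero
  intro L _
  unfold wt
  rw [if_neg, zero_mul]
  intro hc
  apply h
  exact hc (by simp) (by simp) huv

lemma coef_sym (G : SimpleGraph V) (g : ℕ → ℝ) (y : V → ℝ) {u v : V}
    (hS : G.IsClique (supp y : Set V)) (hu : u ∈ supp y) (hv : v ∈ supp y) :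
    coef (wt G g) y u v {u} = coef (wt G g) y u v {v} := by
  unfold coef
  apply sum_congr rfl
  intro L hL
  rw [mem_powerset] at hL
  by_cases hLS : L ⊆ supp y
  · have h1 : G.IsClique (({u} ∪ L : Finset V) : Set V) := by
      apply hS.subset
      rw [coe_subset]
      exact union_subset (singleton_subset_iff.2 hu) hLS
    have h2 : G.IsClique (({v} ∪ L : Finset V) : Set V) := by
      apply hS.subset
      rw [coe_subset]
      exact union_subset (singleton_subset_iff.2 hv) hLS
    unfold wt
    rw [if_pos h1, if_pos h2]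
    have huL : u ∉ L := fun hh => u_notin u v (hL hh)
    have hvL : v ∉ L := fun hh => v_notin u v (hL hh)
    rw [← insert_eq, ← insert_eq, card_insert_of_notMem huL, card_insert_of_notMem hvL]
  · obtain ⟨x, hx, hxs⟩ := not_subset.1 hLS
    have : y x = 0 := by
      by_contra hne
      exact hxs (mem_supp.2 hne)
    rw [prod_eq_zero hx this, mul_zero, mul_zero]

/-- the value at a point which is uniform on a clique -/
lemma Phi_uniform (G : SimpleGraph V) (g : ℕ → ℝ) (y : V → ℝ) (hS : G.IsClique (supp y : Set V))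
    (hy : ∀ x ∈ supp y, y x = 1 / ((supp y).card : ℝ)) :
    Phi (wt G g) y = bal g (supp y).card := by
  unfold Phi
  have h1 : ∑ K ∈ (univ : Finset V).powerset, wt G g K * ∏ v ∈ K, y v =
      ∑ K ∈ (supp y).powerset, wt G g K * ∏ v ∈ K, y v := by
    symm
    apply sum_subset (powerset_mono.2 (subset_univ _))
    intro K _ hK
    rw [mem_powerset] at hK
    obtain ⟨x, hx, hxs⟩ := not_subset.1 hK
    have : y x = 0 := by
      by_contra hne
      exact hxs (mem_supp.2 hne)
    rw [prod_eq_zero hx this, mul_zero]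
  rw [h1, bal, sum_powerset]
  apply sum_congr rfl
  intro j _
  have h2 : ∀ K ∈ powersetCard j (supp y), wt G g K * ∏ v ∈ K, y v =
      g j / ((supp y).card : ℝ) ^ j := by
    intro K hK
    rw [mem_powersetCard] at hK
    unfold wt
    rw [if_pos (hS.subset (coe_subset.2 hK.1)), hK.2,
      prod_congr rfl (fun x hx => hy x (hK.1 hx)), prod_const, hK.2]
    rw [div_pow, one_pow, mul_one_div]
  rw [sum_congr rfl h2, sum_const, card_powersetCard, nsmul_eq_mul]

/-- **Motzkin–Straus for linear combinations of clique counts.** -/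
theorem Phi_le (G : SimpleGraph V) (g : ℕ → ℝ) (U : ℝ) (hU : ∀ k : ℕ, 1 ≤ k → bal g k ≤ U)
    (y : V → ℝ) (hy : y ∈ stdSimplex ℝ V) : Phi (wt G g) y ≤ U := by
  obtain ⟨z, hz, hmax⟩ := (isCompact_stdSimplex ℝ V).exists_isMaxOn ⟨y, hy⟩
    (continuous_Phi (wt G g)).continuousOn
  -- a maximizer with smallest support
  have hex : ∃ n : ℕ, ∃ x ∈ stdSimplex ℝ V, Phi (wt G g) x = Phi (wt G g) z ∧ (supp x).card = n :=
    ⟨_, z, hz, rfl, rfl⟩
  classical
  obtain ⟨x, hx, hxz, hxc⟩ := Nat.find_spec hex
  have hmin : ∀ x' ∈ stdSimplex ℝ V, Phi (wt G g) x' = Phi (wt G g) z →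
      (supp x).card ≤ (supp x').card := by
    intro x' hx' h'
    rw [hxc]
    exact Nat.find_min' hex ⟨x', hx', h', rfl⟩
  have hxmax : ∀ x' ∈ stdSimplex ℝ V, Phi (wt G g) x' ≤ Phi (wt G g) x := by
    intro x' hx'
    rw [hxz]
    exact hmax hx'
  have hpos : ∀ v ∈ supp x, 0 < x v := fun v hv =>
    lt_of_le_of_ne (hx.1 v) (Ne.symm (mem_supp.1 hv))
  -- the support is a clique
  have hclq : G.IsClique (supp x : Set V) := by
    intro u hu v hv huv
    by_contra hadj
    have hu' := hpos u hu
    have hv' := hpos v hv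
    have h0 := coef_nonadj G g x huv hadj
    have h1 := hxmax _ (move_mem hx huv (by linarith : -x u ≤ x v) le_rfl)
    have h2 := hxmax _ (move_mem hx huv le_rfl (by linarith : -x u ≤ x v))
    rw [Phi_move _ _ huv, h0] at h1 h2
    have h3 : coef (wt G g) x u v {u} - coef (wt G g) x u v {v} ≤ 0 := by
      by_contra hcon
      push Not at hcon
      nlinarith [mul_pos hv' hcon]
    have h4 : 0 ≤ coef (wt G g) x u v {u} - coef (wt G g) x u v {v} := by
      by_contra hcon
      push Not at hcon
      nlinarith [mul_pos_of_neg_of_neg (by linarith : -x u < 0) hcon]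
    have h5 : coef (wt G g) x u v {u} - coef (wt G g) x u v {v} = 0 := le_antisymm h3 h4
    have h6 : Phi (wt G g) (move x u v (x v)) = Phi (wt G g) z := by
      rw [Phi_move _ _ huv, h0, h5, ← hxz]; ring
    have h7 := hmin _ (move_mem hx huv (by linarith : -x u ≤ x v) le_rfl) h6
    exact absurd (supp_move_lt huv (mem_supp.1 hu) (mem_supp.1 hv)) (not_lt.2 h7)
  -- all weights are equal
  have heq : ∀ u ∈ supp x, ∀ v ∈ supp x, x u = x v := by
    intro u hu v hv
    by_cases huv : u = v
    · rw [huv]
    have hu' := hpos u hu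
    have hv' := hpos v hv
    have h0 := coef_sym G g x hclq hu hv
    have h1 := hxmax _ (move_mem hx huv (by linarith : -x u ≤ x v) le_rfl)
    rw [Phi_move _ _ huv, h0] at h1
    have h2 : 0 ≤ coef (wt G g) x u v {u, v} := by
      by_contra hcon
      push Not at hcon
      nlinarith [mul_pos hu' hv', mul_pos_of_neg_of_neg hcon (by nlinarith [mul_pos hu' hv'] : x v * (x v - x u - x v) < 0)]
    have h3 : coef (wt G g) x u v {u, v} ≠ 0 := by
      intro h3
      have h6 : Phi (wt G g) (move x u v (x v)) = Phi (wt G g) z := by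
        rw [Phi_move _ _ huv, h0, h3, ← hxz]; ring
      have h7 := hmin _ (move_mem hx huv (by linarith : -x u ≤ x v) le_rfl) h6
      exact absurd (supp_move_lt huv (mem_supp.1 hu) (mem_supp.1 hv)) (not_lt.2 h7)
    have h4 : 0 < coef (wt G g) x u v {u, v} := lt_of_le_of_ne h2 (Ne.symm h3)
    have h5 := hxmax _ (move_mem hx huv (by linarith : -x u ≤ (x v - x u) / 2)
      (by linarith : (x v - x u) / 2 ≤ x v))
    rw [Phi_move _ _ huv, h0] at h5
    by_contra hne
    have h6 : 0 < ((x v - x u) / 2) ^ 2 := by
      apply sq_pos_of_ne_zero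
      intro hh
      apply hne
      linarith
    nlinarith [mul_pos h4 h6]
  have hne : (supp x).Nonempty := by
    rw [nonempty_iff_ne_empty]
    intro h
    have hs := hx.2
    have : ∑ v, x v = 0 := by
      apply sum_eq_zero
      intro v _
      by_contra hv
      have : v ∈ supp x := mem_supp.2 hv
      rw [h] at this
      exact notMem_empty _ this
    rw [this] at hs
    exact zero_ne_one hs
  have hcard : 1 ≤ (supp x).card := hne.card_pos
  have hunif : ∀ v ∈ supp x, x v = 1 / ((supp x).card : ℝ) := by
    intro v hv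
    have hs := hx.2
    have h1 : ∑ u, x u = ∑ u ∈ supp x, x u := by
      symm
      apply sum_subset (subset_univ _)
      intro u _ hu
      by_contra hne
      exact hu (mem_supp.2 hne)
    rw [h1, sum_congr rfl (fun u hu => heq u hu v hv), sum_const, nsmul_eq_mul] at hs
    rw [eq_div_iff (by positivity)]
    linarith
  calc Phi (wt G g) y ≤ Phi (wt G g) x := hxmax y hy
    _ = bal g (supp x).card := Phi_uniform G g x hclq hunif
    _ ≤ U := hU _ hcard

end graph

end Pool.Agent.Y430.CH
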