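import Mathlib
import Pool.Agent.Y430.CliqueHull

set_option autoImplicit false

/-!
Convex hulls of vectors of clique densities.
-/

namespace Pool.Agent.Y430.CH

open Finset Filter Topology

/-- the convex hull of a compact set in a finite-dimensional space is compact -/
theorem compact_hull {E : Type*} [NormedAddCommGroup E] [NormedSpace ℝ E]
    [FiniteDimensional ℝ E] {s : Set E} (hs : IsCompact s) : IsCompact (convexHull ℝ s) := by
  classical
  rcases s.eq_empty_or_nonempty with rfl | ⟨x0, hx0⟩
  · rw [convexHull_empty]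
    exact isCompact_empty
  obtain ⟨n, hn⟩ : ∃ n, n = Module.finrank ℝ E + 1 := ⟨_, rfl⟩
  have hK : IsCompact ((stdSimplex ℝ (Fin n)) ×ˢ (Set.pi Set.univ (fun _ : Fin n => s))) :=
    (isCompact_stdSimplex ℝ (Fin n)).prod (isCompact_univ_pi fun _ => hs)
  have hcont : Continuous (fun p : (Fin n → ℝ) × (Fin n → E) => ∑ i, p.1 i • p.2 i) := by
    refine continuous_finsetSum _ fun i _ => ?_
    exact ((continuous_apply i).comp continuous_fst).smul ((continuous_apply i).comp continuous_snd)
  have heq : convexHull ℝ s = (fun p : (Fin n → ℝ) × (Fin n → E) => ∑ i, p.1 i • p.2 i) ''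
      ((stdSimplex ℝ (Fin n)) ×ˢ (Set.pi Set.univ (fun _ : Fin n => s))) := by
    apply Set.Subset.antisymm
    · intro x hx
      obtain ⟨ι, hι, z, w, hz, hai, hw0, hw1, hwz⟩ := eq_pos_convex_span_of_mem_convexHull hx
      have hcard : Fintype.card ι ≤ Fintype.card (Fin n) := by
        have h1 := hai.card_le_finrank_succ
        have h2 := Submodule.finrank_le (vectorSpan ℝ (Set.range z))
        rw [Fintype.card_fin, hn]
        omega
      obtain ⟨e⟩ := Function.Embedding.nonempty_of_card_le hcard
      refine ⟨(Function.extend e w 0, Function.extend e z (fun _ => x0)), ⟨⟨?_, ?_⟩, ?_⟩, ?_⟩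
      · intro j
        show (0 : ℝ) ≤ Function.extend e w 0 j
        by_cases hj : ∃ i, e i = j
        · obtain ⟨i, rfl⟩ := hj
          rw [e.injective.extend_apply]
          exact (hw0 i).le
        · rw [Function.extend_apply' _ _ _ hj]
          exact le_rfl
      · rw [← hw1]
        symm
        refine Fintype.sum_of_injective e e.injective _ _ ?_ ?_
        · intro j hj
          show Function.extend e w 0 j = 0
          rw [Function.extend_apply' _ _ _ hj]
          rfl
        · intro i
          show w i = Function.extend e w 0 (e i)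
          rw [e.injective.extend_apply]
      · intro j _
        by_cases hj : ∃ i, e i = j
        · obtain ⟨i, rfl⟩ := hj
          show Function.extend e z (fun _ => x0) (e i) ∈ s
          rw [e.injective.extend_apply]
          exact hz ⟨i, rfl⟩
        · show Function.extend e z (fun _ => x0) j ∈ s
          rw [Function.extend_apply' _ _ _ hj]
          exact hx0
      · rw [← hwz]
        symm
        refine Fintype.sum_of_injective e e.injective _ _ ?_ ?_
        · intro j hj
          show Function.extend e w 0 j • Function.extend e z (fun _ => x0) j = 0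
          rw [Function.extend_apply' w _ _ hj]
          simp
        · intro i
          show w i • z i = Function.extend e w 0 (e i) • Function.extend e z (fun _ => x0) (e i)
          rw [e.injective.extend_apply, e.injective.extend_apply]
    · rintro _ ⟨⟨w, z⟩, ⟨⟨hw0, hw1⟩, hz⟩, rfl⟩
      refine (convex_convexHull ℝ s).sum_mem (fun i _ => hw0 i) hw1 (fun i _ => ?_)
      exact subset_convexHull ℝ s (hz i (Set.mem_univ i))
  rw [heq]
  exact hK.image hcont

/-- the density of `e` in balanced complete `k`-partite graphs -/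
noncomputable def tail (e : ℕ) (x : ℝ) : ℝ := ∏ j ∈ Ico 1 e, (1 - (j : ℝ) * x)

lemma cast_desc (n k : ℕ) : ((n.descFactorial k : ℕ) : ℝ) = ∏ j ∈ range k, ((n : ℝ) - j) := by
  induction k with
  | zero => simp
  | succ k ih =>
    rw [Nat.descFactorial_succ, prod_range_succ, Nat.cast_mul, ih, mul_comm]
    by_cases h : k ≤ n
    · rw [Nat.cast_sub h]
    · have h0 : ∏ j ∈ range k, ((n : ℝ) - j) = 0 := by
        apply prod_eq_zero (mem_range.2 (by omega : n < k))
        simp
      rw [h0, zero_mul, zero_mul]

lemma desc_div {n k : ℕ} (hn : 1 ≤ n) (hk : 1 ≤ k) :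
    ((n.descFactorial k : ℕ) : ℝ) / (n : ℝ) ^ k = tail k (1 / (n : ℝ)) := by
  have hn' : (n : ℝ) ≠ 0 := by positivity
  rw [cast_desc, tail]
  have h1 : (n : ℝ) ^ k = ∏ _j ∈ range k, (n : ℝ) := by rw [prod_const, card_range]
  rw [h1, ← prod_div_distrib, range_eq_Ico, prod_eq_prod_Ico_succ_bot (by omega : 0 < k)]
  simp only [Nat.cast_zero, sub_zero, div_self hn', one_mul, zero_add]
  apply prod_congr rfl
  intro j _
  field_simp

lemma tail_le_one {e : ℕ} {x : ℝ} (hx : 0 ≤ x) (he : (e : ℝ) * x ≤ 1) :
    0 ≤ tail e x ∧ tail e x ≤ 1 := by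
  have h : ∀ j ∈ Ico 1 e, 0 ≤ 1 - (j : ℝ) * x ∧ 1 - (j : ℝ) * x ≤ 1 := by
    intro j hj
    rw [mem_Ico] at hj
    have h1 : (j : ℝ) ≤ e := by exact_mod_cast hj.2.le
    have h2 : (j : ℝ) * x ≤ e * x := mul_le_mul_of_nonneg_right h1 hx
    have h3 : 0 ≤ (j : ℝ) * x := by positivity
    constructor <;> linarith
  exact ⟨prod_nonneg fun j hj => (h j hj).1, prod_le_one (fun j hj => (h j hj).1)
    fun j hj => (h j hj).2⟩

lemma continuous_tail (e : ℕ) : Continuous (tail e) := by
  unfold tail
  fun_prop

lemma tail_zero (e : ℕ) : tail e 0 = 1 := by simp [tail]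

/-- the number of `e`-cliques -/
noncomputable def kc {V : Type*} (G : SimpleGraph V) (e : ℕ) : ℕ := (G.cliqueSet e).ncard

section

variable {m : ℕ} (e : Fin m → ℕ) (a : Fin m → ℝ)

/-- the coefficients -/
noncomputable def gg (j : ℕ) : ℝ := ∑ i, if e i = j then a i * (j.factorial : ℝ) else 0

lemma bal_gg (he : ∀ i, 1 ≤ e i) {k : ℕ} (hk : 1 ≤ k) :
    bal (gg e a) k = ∑ i, a i * tail (e i) (1 / (k : ℝ)) := by
  have hk' : (k : ℝ) ≠ 0 := by positivity
  unfold bal gg
  have h1 : ∀ j ∈ range (k + 1), (k.choose j : ℝ) *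
      ((∑ i, if e i = j then a i * (j.factorial : ℝ) else 0) / (k : ℝ) ^ j) =
      ∑ i, if e i = j then a i * (((k.descFactorial j : ℕ) : ℝ) / (k : ℝ) ^ j) else 0 := by
    intro j _
    rw [sum_div, mul_sum]
    apply sum_congr rfl
    intro i _
    split_ifs with h
    · rw [Nat.descFactorial_eq_factorial_mul_choose]
      push_cast
      ring
    · simp
  rw [sum_congr rfl h1, sum_comm]
  apply sum_congr rfl
  intro i _
  rw [← desc_div hk (he i)]
  by_cases h : e i ≤ k
  · rw [sum_ite_eq, if_pos (mem_range.2 (by omega))]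
  · have h2 : k.descFactorial (e i) = 0 := Nat.descFactorial_of_lt (by omega)
    rw [h2]
    simp only [Nat.cast_zero, zero_div, mul_zero]
    apply sum_eq_zero
    intro j hj
    rw [mem_range] at hj
    rw [if_neg (by omega)]

lemma Phi_gg {V : Type*} [Fintype V] [DecidableEq V] (G : SimpleGraph V) :
    Phi (wt G (gg e a)) (fun _ => 1 / (Fintype.card V : ℝ)) =
      ∑ i, a i * (((e i).factorial : ℝ) * kc G (e i) / (Fintype.card V : ℝ) ^ (e i)) := by
  classical
  unfold Phi
  have h1 : ∀ K ∈ (univ : Finset V).powerset,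
      wt G (gg e a) K * ∏ _v ∈ K, (1 / (Fintype.card V : ℝ)) =
      ∑ i, a i * (((e i).factorial : ℝ) * (if K ∈ G.cliqueSet (e i) then 1 else 0) /
        (Fintype.card V : ℝ) ^ (e i)) := by
    intro K _
    unfold wt gg
    rw [prod_const]
    by_cases hK : G.IsClique (K : Set V)
    · rw [if_pos hK, sum_mul]
      apply sum_congr rfl
      intro i _
      by_cases hi : e i = K.card
      · rw [if_pos hi, if_pos]
        · rw [hi, div_pow, one_pow]
          ring
        · rw [SimpleGraph.mem_cliqueSet_iff]
          exact ⟨hK, hi.symm⟩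
      · rw [if_neg hi, if_neg]
        · simp
        · rw [SimpleGraph.mem_cliqueSet_iff]
          intro h
          exact hi h.card_eq.symm
    · rw [if_neg hK, zero_mul]
      symm
      apply sum_eq_zero
      intro i _
      rw [if_neg]
      · simp
      · rw [SimpleGraph.mem_cliqueSet_iff]
        intro h
        exact hK h.isClique
  rw [sum_congr rfl h1, sum_comm]
  apply sum_congr rfl
  intro i _
  rw [← mul_sum, ← sum_div, ← mul_sum]
  congr 4
  rw [sum_boole, kc, powerset_univ, Set.ncard_eq_toFinset_card']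
  congr 1
  congr 1
  ext K
  simp

/-- a linear functional of the vector of clique densities is at most its supremum over balanced
complete multipartite graphs up to an error which tends to `0` -/
theorem density_le {N : ℕ} (hN : 1 ≤ N) (he : ∀ i, 1 ≤ e i) (heN : ∀ i, e i ≤ N)
    (U : ℝ) (hU : ∀ k : ℕ, 1 ≤ k → ∑ i, a i * tail (e i) (1 / (k : ℝ)) ≤ U)
    (G : SimpleGraph (Fin N)) :
    ∑ i, a i * ((kc G (e i) : ℝ) / (N.choose (e i) : ℝ)) ≤
      U + ∑ i, |a i| * (1 - tail (e i) (1 / (N : ℝ))) := by
  have hN' : (0 : ℝ) < N := by positivity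
  have h1 : Phi (wt G (gg e a)) (fun _ => 1 / (Fintype.card (Fin N) : ℝ)) ≤ U := by
    apply Phi_le G (gg e a) U
    · intro k hk
      rw [bal_gg e a he hk]
      exact hU k hk
    · constructor
      · intro x
        positivity
      · rw [sum_const, card_univ, nsmul_eq_mul, Fintype.card_fin, mul_one_div, div_self hN'.ne']
  rw [Phi_gg, Fintype.card_fin] at h1
  have h2 : ∑ i, a i * ((kc G (e i) : ℝ) / (N.choose (e i) : ℝ)) ≤
      ∑ i, (a i * (((e i).factorial : ℝ) * kc G (e i) / (N : ℝ) ^ (e i)) +
        |a i| * (1 - tail (e i) (1 / (N : ℝ)))) := by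
    apply sum_le_sum
    intro i _
    have hC : (0 : ℝ) < (N.choose (e i) : ℝ) := by
      exact_mod_cast Nat.choose_pos (heN i)
    set d : ℝ := (kc G (e i) : ℝ) / (N.choose (e i) : ℝ) with hd
    have hd0 : 0 ≤ d := by positivity
    have hd1 : d ≤ 1 := by
      rw [hd, div_le_one hC]
      have : kc G (e i) ≤ N.choose (e i) := by
        classical
        rw [kc, Set.ncard_eq_toFinset_card']
        have h3 : (G.cliqueSet (e i)).toFinset ⊆ powersetCard (e i) (univ : Finset (Fin N)) := by
          intro K hK
          rw [Set.mem_toFinset, SimpleGraph.mem_cliqueSet_iff] at hK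
          rw [mem_powersetCard]
          exact ⟨subset_univ _, hK.card_eq⟩
        have h4 := card_le_card h3
        rwa [card_powersetCard, card_univ, Fintype.card_fin] at h4
      exact_mod_cast this
    have h3 : ((e i).factorial : ℝ) * kc G (e i) / (N : ℝ) ^ (e i) =
        d * tail (e i) (1 / (N : ℝ)) := by
      rw [← desc_div hN (he i), hd, Nat.descFactorial_eq_factorial_mul_choose]
      push_cast
      field_simp
    have ht := tail_le_one (e := e i) (x := 1 / (N : ℝ)) (by positivity) (by
      rw [mul_one_div, div_le_one hN']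
      exact_mod_cast heN i)
    rw [h3]
    have h4 : a i * d - a i * (d * tail (e i) (1 / (N : ℝ))) =
        a i * (d * (1 - tail (e i) (1 / (N : ℝ)))) := by ring
    have h5 : a i * (d * (1 - tail (e i) (1 / (N : ℝ)))) ≤
        |a i| * (d * (1 - tail (e i) (1 / (N : ℝ)))) :=
      mul_le_mul_of_nonneg_right (le_abs_self _) (mul_nonneg hd0 (by linarith [ht.2]))
    have h6 : d * (1 - tail (e i) (1 / (N : ℝ))) ≤ 1 * (1 - tail (e i) (1 / (N : ℝ))) :=
      mul_le_mul_of_nonneg_right hd1 (by linarith [ht.2])
    have h7 : |a i| * (d * (1 - tail (e i) (1 / (N : ℝ)))) ≤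
        |a i| * (1 * (1 - tail (e i) (1 / (N : ℝ)))) :=
      mul_le_mul_of_nonneg_left h6 (abs_nonneg _)
    linarith
  rw [sum_add_distrib] at h2
  linarith

end

/-! ### the points of the complete multipartite graphs -/

/-- the complete multipartite graph with the classes given by `f` -/
def part {V W : Type*} (f : V → W) : SimpleGraph V where
  Adj x y := f x ≠ f y
  symm := ⟨fun _ _ h => h.symm⟩
  loopless := ⟨fun _ h => h rfl⟩

lemma isClique_part {V W : Type*} (f : V → W) (S : Set V) :
    (part f).IsClique S ↔ Set.InjOn f S := by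
  constructor
  · intro h x hx y hy hxy
    by_contra hne
    exact h hx hy hne hxy
  · intro h x hx y hy hne hxy
    exact hne (h hx hy hxy)

lemma card_injOn {V : Type*} [Fintype V] [DecidableEq V] (k : ℕ) (K : Finset V) :
    Nat.card {f : V → Fin k // Set.InjOn f (K : Set V)} =
      k.descFactorial K.card * k ^ (Fintype.card V - K.card) := by
  classical
  let E1 : {f : V → Fin k // Set.InjOn f (K : Set V)} ≃
      {q : ({x // x ∈ K} → Fin k) × ({x // ¬ x ∈ K} → Fin k) // Function.Injective q.1} :=
    (Equiv.piEquivPiSubtypeProd (fun x => x ∈ K) (fun _ => Fin k)).subtypeEquiv (by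
      intro f
      simp only [Equiv.piEquivPiSubtypeProd]
      constructor
      · intro h x y hxy
        exact Subtype.ext (h x.2 y.2 hxy)
      · intro h x hx y hy hxy
        have := @h ⟨x, hx⟩ ⟨y, hy⟩ hxy
        exact congrArg Subtype.val this)
  let E2 : {q : ({x // x ∈ K} → Fin k) × ({x // ¬ x ∈ K} → Fin k) // Function.Injective q.1} ≃
      ({x // x ∈ K} ↪ Fin k) × ({x // ¬ x ∈ K} → Fin k) :=
    { toFun := fun q => (⟨q.1.1, q.2⟩, q.1.2)
      invFun := fun q => ⟨(q.1, q.2), q.1.injective⟩
      left_inv := fun q => rfl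
      right_inv := fun q => rfl }
  rw [Nat.card_congr (E1.trans E2), Nat.card_prod, Nat.card_eq_fintype_card,
    Nat.card_eq_fintype_card, Fintype.card_embedding_eq, Fintype.card_fun]
  simp [Fintype.card_subtype_compl]

/-- averaging the number of `e`-cliques over all `k`-partitions -/
lemma sum_kc (N k e : ℕ) : ∑ f : Fin N → Fin k, kc (part f) e =
    N.choose e * (k.descFactorial e * k ^ (N - e)) := by
  classical
  have h1 : ∀ f : Fin N → Fin k, kc (part f) e =
      ∑ K ∈ powersetCard e (univ : Finset (Fin N)), if Set.InjOn f (K : Set (Fin N)) then 1 else 0 := by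
    intro f
    rw [kc, Set.ncard_eq_toFinset_card', ← card_filter]
    congr 1
    ext K
    rw [Set.mem_toFinset, SimpleGraph.mem_cliqueSet_iff, mem_filter, mem_powersetCard,
      SimpleGraph.isNClique_iff, isClique_part]
    constructor
    · rintro ⟨h2, h3⟩
      exact ⟨⟨subset_univ _, h3⟩, h2⟩
    · rintro ⟨⟨_, h3⟩, h2⟩
      exact ⟨h2, h3⟩
  rw [sum_congr rfl (fun f _ => h1 f), sum_comm]
  have h2 : ∀ K ∈ powersetCard e (univ : Finset (Fin N)),
      (∑ f : Fin N → Fin k, if Set.InjOn f (K : Set (Fin N)) then 1 else 0) =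
      k.descFactorial e * k ^ (N - e) := by
    intro K hK
    rw [mem_powersetCard] at hK
    rw [← card_filter, ← Fintype.card_subtype, ← Nat.card_eq_fintype_card, card_injOn, hK.2,
      Fintype.card_fin]
  rw [sum_congr rfl h2, sum_const, card_powersetCard, card_univ, Fintype.card_fin, smul_eq_mul]

end Pool.Agent.Y430.CH
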