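import Pool.Agent.H628R4.TP.LocDefs

set_option autoImplicit false

/-! Roots of local b-functions from functionals (job N4-M1 of helper231). -/

namespace Pool.Agent.Y430.N4M1

open MvPolynomial
open Pool.Agent.H628R4.TP

variable {N : ℕ}

/-- coefficientwise derivative -/
noncomputable def mapD (i : Fin N) (G : Polynomial (MvPolynomial (Fin N) ℂ)) :
    Polynomial (MvPolynomial (Fin N) ℂ) :=
  ∑ t ∈ G.support, Polynomial.monomial t (pderiv i (G.coeff t))

theorem eval_mapD (i : Fin N) (G : Polynomial (MvPolynomial (Fin N) ℂ)) (z : ℂ) :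
    (mapD i G).eval (C z) = pderiv i (G.eval (C z)) := by
  rw [mapD, Polynomial.eval_finsetSum, Polynomial.eval_eq_sum, Polynomial.sum_def, map_sum]
  apply Finset.sum_congr rfl
  intro t _
  rw [Polynomial.eval_monomial, Derivation.leibniz, ← map_pow, pderiv_C, smul_zero, zero_add,
    smul_eq_mul, mul_comm]

/-- the families `f ^ (s + 1 - D) G(s)` -/
def Good (f : MvPolynomial (Fin N) ℂ) (α : ℂ) (Λ : ℕ → MvPolynomial (Fin N) ℂ →ₗ[ℂ] ℂ)
    (D : ℕ) (G : Polynomial (MvPolynomial (Fin N) ℂ)) (u : ℕ → MvPolynomial (Fin N) ℂ) : Prop :=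
  (∀ s : ℕ, D ≤ s + 1 → u s = f ^ (s + 1 - D) * G.eval (C (s : ℂ))) ∧
    ∀ a : MvPolynomial (Fin N) ℂ, Λ D (a * G.eval (C α)) = 0

section

variable {f : MvPolynomial (Fin N) ℂ} {α : ℂ} {Λ : ℕ → MvPolynomial (Fin N) ℂ →ₗ[ℂ] ℂ}

theorem Good.raise (h2 : ∀ k g, Λ (k + 1) (g * f) = Λ k g) {D : ℕ}
    {G : Polynomial (MvPolynomial (Fin N) ℂ)} {u : ℕ → MvPolynomial (Fin N) ℂ}
    (h : Good f α Λ D G u) : Good f α Λ (D + 1) (G * Polynomial.C f) u := by
  constructor
  · intro s hs
    rw [h.1 s (by omega), Polynomial.eval_mul, Polynomial.eval_C]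
    have : s + 1 - D = (s + 1 - (D + 1)) + 1 := by omega
    rw [this, pow_succ]; ring
  · intro a
    rw [Polynomial.eval_mul, Polynomial.eval_C, ← mul_assoc, h2]
    exact h.2 a

theorem Good.raise' (h2 : ∀ k g, Λ (k + 1) (g * f) = Λ k g) {D : ℕ}
    {G : Polynomial (MvPolynomial (Fin N) ℂ)} {u : ℕ → MvPolynomial (Fin N) ℂ}
    (h : Good f α Λ D G u) (D' : ℕ) (hD : D ≤ D') : ∃ G', Good f α Λ D' G' u := by
  induction D', hD using Nat.le_induction with
  | base => exact ⟨G, h⟩
  | succ n _ ih =>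
    obtain ⟨G', h'⟩ := ih
    exact ⟨_, h'.raise h2⟩

/-- the closure property -/
theorem good_weyl (h2 : ∀ k g, Λ (k + 1) (g * f) = Λ k g)
    (h3 : ∀ (k : ℕ) i g, Λ (k + 1) (f * pderiv i g + C (α + 1 - k) * (g * pderiv i f)) = 0)
    (Q : Module.End ℂ (MvPolynomial (Fin N) ℂ)) (hQ : Q ∈ weylS (Fin N)) :
    ∀ (u : ℕ → MvPolynomial (Fin N) ℂ), (∃ D G, Good f α Λ D G u) →
      ∃ D G, Good f α Λ D G (fun s => Q (u s)) := by
  unfold weylS at hQ
  induction hQ using Algebra.adjoin_induction with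
  | mem x hx =>
    rintro u ⟨D, G, h⟩
    rcases hx with ⟨i, rfl⟩ | ⟨i, rfl⟩
    · refine ⟨D, Polynomial.C (X i) * G, ?_, ?_⟩
      · intro s hs
        change X i * u s = _
        rw [h.1 s hs, Polynomial.eval_mul, Polynomial.eval_C]; ring
      · intro a
        rw [Polynomial.eval_mul, Polynomial.eval_C, ← mul_assoc]
        exact h.2 _
    · refine ⟨D + 1, Polynomial.C f * mapD i G + (Polynomial.X + Polynomial.C (C (1 - (D : ℂ)))) *
        (G * Polynomial.C (pderiv i f)), ?_, ?_⟩
      · intro s hs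
        have hsub : s + 1 - D = (s + 1 - (D + 1)) + 1 := by omega
        have hcast : ((s + 1 - (D + 1) : ℕ) : MvPolynomial (Fin N) ℂ) + 1 =
            C (s : ℂ) + C (1 - (D : ℂ)) := by
          have h5 : s + 1 - (D + 1) + D = s := by omega
          have h6 : ((s + 1 - (D + 1) : ℕ) : MvPolynomial (Fin N) ℂ) + (D : ℕ) = (s : ℕ) := by
            rw [← Nat.cast_add, h5]
          rw [map_sub, map_one, map_natCast, map_natCast, ← h6]; ring
        change pderiv i (u s) = _
        rw [h.1 s (by omega), hsub, Derivation.leibniz, Derivation.leibniz_pow]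
        rw [Polynomial.eval_add, Polynomial.eval_mul, Polynomial.eval_mul, Polynomial.eval_mul,
          Polynomial.eval_C, Polynomial.eval_C, eval_mapD, Polynomial.eval_add, Polynomial.eval_X,
          Polynomial.eval_C, ← hcast]
        generalize s + 1 - (D + 1) = m
        simp only [smul_eq_mul, nsmul_eq_mul, Nat.add_sub_cancel, Nat.cast_add, Nat.cast_one]
        generalize pderiv i (Polynomial.eval (C (s : ℂ)) G) = A1
        generalize Polynomial.eval (C (s : ℂ)) G = A2
        generalize pderiv i f = A3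
        rw [pow_succ]
        ring_nf
      · intro a
        rw [Polynomial.eval_add, Polynomial.eval_mul, Polynomial.eval_mul, Polynomial.eval_mul,
          Polynomial.eval_C, Polynomial.eval_C, eval_mapD, Polynomial.eval_add, Polynomial.eval_X,
          Polynomial.eval_C]
        have h5 := h3 D i (a * G.eval (C α))
        have h6 : Λ (D + 1) ((pderiv i a * G.eval (C α)) * f) = 0 := by rw [h2]; exact h.2 _
        have h7 : a * (f * pderiv i (G.eval (C α)) + (C α + C (1 - (D : ℂ))) *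
            (G.eval (C α) * pderiv i f)) =
            (f * pderiv i (a * G.eval (C α)) + C (α + 1 - D) * (a * G.eval (C α) * pderiv i f)) -
              (pderiv i a * G.eval (C α)) * f := by
          rw [Derivation.leibniz, smul_eq_mul, smul_eq_mul, ← map_add, add_sub_assoc]
          ring_nf
        rw [h7, map_sub, h5, h6, sub_zero]
  | algebraMap c =>
    rintro u ⟨D, G, h⟩
    refine ⟨D, Polynomial.C (C c) * G, ?_, ?_⟩
    · intro s hs
      change c • u s = _
      rw [h.1 s hs, Polynomial.eval_mul, Polynomial.eval_C, MvPolynomial.smul_eq_C_mul]; ring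
    · intro a
      rw [Polynomial.eval_mul, Polynomial.eval_C, ← mul_assoc]
      exact h.2 _
  | add x y _ _ hx hy =>
    rintro u hu
    obtain ⟨D1, G1, h1⟩ := hx u hu
    obtain ⟨D2, G2, h2'⟩ := hy u hu
    obtain ⟨G1', h1'⟩ := h1.raise' h2 (max D1 D2) (le_max_left _ _)
    obtain ⟨G2', h2''⟩ := h2'.raise' h2 (max D1 D2) (le_max_right _ _)
    refine ⟨max D1 D2, G1' + G2', ?_, ?_⟩
    · intro s hs
      have e1 : x (u s) = _ := h1'.1 s hs
      have e2 : y (u s) = _ := h2''.1 s hs
      change x (u s) + y (u s) = _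
      rw [e1, e2, Polynomial.eval_add]; ring
    · intro a
      rw [Polynomial.eval_add, mul_add, map_add, h1'.2, h2''.2, add_zero]
  | mul x y _ _ hx hy =>
    rintro u hu
    exact hx _ (hy u hu)

theorem lam_pow (h2 : ∀ k g, Λ (k + 1) (g * f) = Λ k g) (j : ℕ) : Λ (1 + j) (f ^ j) = Λ 1 1 := by
  induction j with
  | zero => simp
  | succ j ih => rw [← add_assoc, pow_succ, h2, ih]

/-- the coefficients of `a G(z)` are polynomials in `z` -/
theorem coeff_poly (a : MvPowerSeries (Fin N) ℂ) (G : Polynomial (MvPolynomial (Fin N) ℂ))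
    (n : Fin N →₀ ℕ) : ∃ P : Polynomial ℂ, ∀ z : ℂ,
      MvPowerSeries.coeff n (a * ((G.eval (C z) : MvPolynomial (Fin N) ℂ) :
        MvPowerSeries (Fin N) ℂ)) = P.eval z := by
  refine ⟨∑ t ∈ G.support, Polynomial.monomial t
    (MvPowerSeries.coeff n (a * ((G.coeff t : MvPolynomial (Fin N) ℂ) :
      MvPowerSeries (Fin N) ℂ))), fun z => ?_⟩
  rw [Polynomial.eval_eq_sum, Polynomial.sum_def, Polynomial.eval_finsetSum]
  have h1 : ((∑ t ∈ G.support, G.coeff t * (C z) ^ t : MvPolynomial (Fin N) ℂ) :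
      MvPowerSeries (Fin N) ℂ) = ∑ t ∈ G.support, ((G.coeff t : MvPolynomial (Fin N) ℂ) :
      MvPowerSeries (Fin N) ℂ) * MvPowerSeries.C (z ^ t) := by
    rw [← MvPolynomial.coeToMvPowerSeries.ringHom_apply, map_sum]
    apply Finset.sum_congr rfl
    intro t _
    rw [map_mul, ← map_pow, MvPolynomial.coeToMvPowerSeries.ringHom_apply,
      MvPolynomial.coeToMvPowerSeries.ringHom_apply, MvPolynomial.coe_C]
  rw [h1, Finset.mul_sum, map_sum]
  apply Finset.sum_congr rfl
  intro t _
  rw [Polynomial.eval_monomial, ← mul_assoc, mul_comm _ (MvPowerSeries.C (z ^ t)),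
    MvPowerSeries.coeff_C_mul, mul_comm]

theorem main (hf : f ≠ 0) (K : ℕ → ℕ)
    (h1 : ∀ k g, (∀ d ∈ g.support, K k ≤ ∑ i, d i) → Λ k g = 0)
    (h2 : ∀ k g, Λ (k + 1) (g * f) = Λ k g)
    (h3 : ∀ (k : ℕ) i g, Λ (k + 1) (f * pderiv i g + C (α + 1 - k) * (g * pderiv i f)) = 0)
    (h4 : ∀ g, Λ 0 g = 0) (h5 : Λ 1 1 ≠ 0) (b : Polynomial ℂ) (hb : IsLocalBFunction f b) :
    b.eval α = 0 := by
  classical
  obtain ⟨L, m, a, Q, hQ⟩ := hb
  have hstart : Good f α Λ 0 1 (fun s => f ^ (s + 1)) := by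
    constructor
    · intro s _; simp
    · intro a; rw [h4]
  have hex : ∀ i, ∃ D G, Good f α Λ D G
      (fun s => (Q i : Module.End ℂ (MvPolynomial (Fin N) ℂ)) (f ^ (s + 1))) := fun i =>
    good_weyl h2 h3 _ (Q i).2 _ ⟨0, 1, hstart⟩
  choose D0 G0 hG0 using hex
  set D := (∑ i, D0 i) + 1 with hD
  have hle : ∀ i, D0 i ≤ D := fun i =>
    (Finset.single_le_sum (f := D0) (fun _ _ => Nat.zero_le _) (Finset.mem_univ i)).trans
      (Nat.le_succ _)
  choose G hG using fun i => (hG0 i).raise' h2 D (hle i)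
  -- the identity for large s
  have hid : ∀ s : ℕ, D ≤ s + 1 → MvPowerSeries.C (b.eval (s : ℂ)) *
      ((f ^ (D - 1) : MvPolynomial (Fin N) ℂ) : MvPowerSeries (Fin N) ℂ) =
      ∑ i, MvPowerSeries.C ((s : ℂ) ^ m i) * (a i *
        (((G i).eval (C (s : ℂ)) : MvPolynomial (Fin N) ℂ) : MvPowerSeries (Fin N) ℂ)) := by
    intro s hs
    have h6 := hQ s
    have hne : ((f ^ (s + 1 - D) : MvPolynomial (Fin N) ℂ) : MvPowerSeries (Fin N) ℂ) ≠ 0 := by
      rw [Ne, MvPolynomial.coe_eq_zero_iff]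
      exact pow_ne_zero _ hf
    apply mul_left_cancel₀ hne
    have h7 : f ^ s = f ^ (s + 1 - D) * f ^ (D - 1) := by rw [← pow_add]; congr 1; omega
    rw [h7, MvPolynomial.coe_mul] at h6
    rw [← mul_assoc, mul_comm _ (MvPowerSeries.C _), mul_assoc, h6, Finset.mul_sum]
    apply Finset.sum_congr rfl
    intro i _
    have e : (Q i : Module.End ℂ (MvPolynomial (Fin N) ℂ)) (f ^ (s + 1)) = _ := (hG i).1 s hs
    rw [e, MvPolynomial.coe_mul]
    ring
  have hidα : MvPowerSeries.C (b.eval α) *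
      ((f ^ (D - 1) : MvPolynomial (Fin N) ℂ) : MvPowerSeries (Fin N) ℂ) =
      ∑ i, MvPowerSeries.C (α ^ m i) * (a i *
        (((G i).eval (C α) : MvPolynomial (Fin N) ℂ) : MvPowerSeries (Fin N) ℂ)) := by
    ext n
    choose P hP using fun i => coeff_poly (a i) (G i) n
    set c := MvPowerSeries.coeff n ((f ^ (D - 1) : MvPolynomial (Fin N) ℂ) :
      MvPowerSeries (Fin N) ℂ) with hc
    have hpoly : b * Polynomial.C c = ∑ i, Polynomial.X ^ m i * P i := by
      apply Polynomial.eq_of_infinite_eval_eq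
      apply Set.Infinite.mono (s := (fun s : ℕ => (s : ℂ)) '' {s | D ≤ s + 1})
      · rintro _ ⟨s, hs, rfl⟩
        have h8 := congrArg (MvPowerSeries.coeff n) (hid s hs)
        rw [MvPowerSeries.coeff_C_mul, map_sum, ← hc] at h8
        change Polynomial.eval (s : ℂ) _ = Polynomial.eval (s : ℂ) _
        rw [Polynomial.eval_mul, Polynomial.eval_C, Polynomial.eval_finsetSum, h8]
        apply Finset.sum_congr rfl
        intro i _
        rw [MvPowerSeries.coeff_C_mul, hP, Polynomial.eval_mul, Polynomial.eval_pow,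
          Polynomial.eval_X]
      · apply Set.Infinite.image (Nat.cast_injective.injOn)
        apply Set.infinite_of_not_bddAbove
        rintro ⟨B, hB⟩
        have := hB (show D + B + 1 ∈ {s | D ≤ s + 1} by change D ≤ _; omega)
        omega
    have h9 := congrArg (Polynomial.eval α) hpoly
    rw [Polynomial.eval_mul, Polynomial.eval_C, Polynomial.eval_finsetSum] at h9
    rw [MvPowerSeries.coeff_C_mul, map_sum, ← hc, h9]
    apply Finset.sum_congr rfl
    intro i _
    rw [MvPowerSeries.coeff_C_mul, hP, Polynomial.eval_mul, Polynomial.eval_pow,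
      Polynomial.eval_X]
  -- truncation
  let p : Fin L → MvPolynomial (Fin N) ℂ := fun i => MvPowerSeries.truncTotal (K D) (a i)
  set h := C (b.eval α) * f ^ (D - 1) - ∑ i, C (α ^ m i) * (p i * (G i).eval (C α)) with hh
  have hsupp : ∀ d ∈ h.support, K D ≤ ∑ i, d i := by
    intro d hd
    by_contra hlt
    push Not at hlt
    rw [MvPolynomial.mem_support_iff] at hd
    apply hd
    rw [← MvPolynomial.coeff_coe, hh]
    have h10 : ((C (b.eval α) * f ^ (D - 1) - ∑ i, C (α ^ m i) * (p i * (G i).eval (C α)) :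
        MvPolynomial (Fin N) ℂ) : MvPowerSeries (Fin N) ℂ) =
        ∑ i, MvPowerSeries.C (α ^ m i) * ((a i - ((p i : MvPolynomial (Fin N) ℂ) :
          MvPowerSeries (Fin N) ℂ)) *
        (((G i).eval (C α) : MvPolynomial (Fin N) ℂ) : MvPowerSeries (Fin N) ℂ)) := by
      rw [← MvPolynomial.coeToMvPowerSeries.ringHom_apply, map_sub, map_mul, map_sum,
        MvPolynomial.coeToMvPowerSeries.ringHom_apply,
        MvPolynomial.coeToMvPowerSeries.ringHom_apply, MvPolynomial.coe_C, hidα,
        ← Finset.sum_sub_distrib]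
      apply Finset.sum_congr rfl
      intro i _
      rw [map_mul, map_mul, MvPolynomial.coeToMvPowerSeries.ringHom_apply,
        MvPolynomial.coeToMvPowerSeries.ringHom_apply,
        MvPolynomial.coeToMvPowerSeries.ringHom_apply, MvPolynomial.coe_C]
      ring
    rw [h10, map_sum]
    apply Finset.sum_eq_zero
    intro i _
    rw [MvPowerSeries.coeff_C_mul, MvPowerSeries.coeff_mul]
    rw [Finset.sum_eq_zero, mul_zero]
    rintro ⟨x, y⟩ hxy
    rw [Finset.HasAntidiagonal.mem_antidiagonal] at hxy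
    have hx : x.degree < K D := by
      have : x.degree + y.degree = d.degree := by rw [← hxy, map_add]
      have h11 : d.degree = ∑ i, d i := Finsupp.degree_eq_sum d
      omega
    have h12 : MvPowerSeries.coeff x (a i - ((p i : MvPolynomial (Fin N) ℂ) :
          MvPowerSeries (Fin N) ℂ)) = 0 := by
      rw [map_sub, MvPolynomial.coeff_coe, MvPowerSeries.coeff_truncTotal _ hx, sub_self]
    simp only
    rw [h12, zero_mul]
  have h13 := h1 D h hsupp
  rw [hh, map_sub, map_sum] at h13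
  have h14 : ∀ i, Λ D (C (α ^ m i) * (p i * (G i).eval (C α))) = 0 := by
    intro i
    rw [← mul_assoc]
    exact (hG i).2 _
  rw [Finset.sum_eq_zero (fun i _ => h14 i), sub_zero, ← MvPolynomial.smul_eq_C_mul, map_smul,
    smul_eq_mul] at h13
  have h15 : Λ D (f ^ (D - 1)) = Λ 1 1 := by
    have := lam_pow h2 (D - 1)
    rwa [show 1 + (D - 1) = D by omega] at this
  rw [h15] at h13
  exact (mul_eq_zero.mp h13).resolve_right h5

end

end Pool.Agent.Y430.N4M1
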