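import Mathlib

/-!
# Additive complements in `𝔽₂ⁿ` and cosets in `A + A` (helper430, for MP_6fec45_co)

`A` is the Hamming ball of radius `(n - √n) / 2` in `𝔽₂ⁿ`, `n = 4^k`, and the complement `S` is the set of
all affine functions on `𝔽₂^{2k}` (the first order Reed-Muller code).  Parseval gives `A + S = 𝔽₂ⁿ`,
while every coset of a subspace `V` contains a vector of weight at least `dim V`.
-/

set_option autoImplicit false

namespace Pool.Agent.Y430.AddCompl

open Pointwise Module

/-- the sign of an element of `𝔽₂` -/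
def sg (b : ZMod 2) : ℤ := if b = 0 then 1 else -1

theorem sg_add (a b : ZMod 2) : sg (a + b) = sg a * sg b := by
  revert a b; decide

theorem sg_zero : sg 0 = 1 := by decide

theorem sg_mul_self (a : ZMod 2) : sg a * sg a = 1 := by
  revert a; decide

theorem sg_sum {α : Type} (s : Finset α) (f : α → ZMod 2) :
    sg (∑ i ∈ s, f i) = ∏ i ∈ s, sg (f i) := by
  classical
  induction s using Finset.induction_on with
  | empty => simp [sg_zero]
  | insert a s ha ih => rw [Finset.sum_insert ha, Finset.prod_insert ha, sg_add, ih]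

/-- the inner product -/
def dot {m : ℕ} (a y : Fin m → ZMod 2) : ZMod 2 := ∑ i, a i * y i

theorem dot_add {m : ℕ} (a y z : Fin m → ZMod 2) : dot a (y + z) = dot a y + dot a z := by
  unfold dot
  rw [← Finset.sum_add_distrib]
  refine Finset.sum_congr rfl (fun i _ => ?_)
  rw [Pi.add_apply, mul_add]

theorem char_sum {m : ℕ} (u : Fin m → ZMod 2) :
    ∑ a : Fin m → ZMod 2, sg (dot a u) = if u = 0 then (2 : ℤ) ^ m else 0 := by
  classical
  have h1 : ∀ a : Fin m → ZMod 2, sg (dot a u) = ∏ i, sg (a i * u i) := by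
    intro a
    unfold dot
    rw [sg_sum]
  have h2 : ∑ a : Fin m → ZMod 2, ∏ i, sg (a i * u i) = ∏ i : Fin m, ∑ b : ZMod 2, sg (b * u i) := by
    rw [Finset.prod_univ_sum]
    rw [Fintype.piFinset_univ]
  simp_rw [h1]
  rw [h2]
  split_ifs with hu
  · subst hu
    have : ∀ i : Fin m, ∑ b : ZMod 2, sg (b * (0 : Fin m → ZMod 2) i) = 2 := by
      intro i
      simp [sg_zero]
    rw [Finset.prod_congr rfl (fun i _ => this i)]
    simp
  · obtain ⟨i, hi⟩ : ∃ i, u i ≠ 0 := by
      by_contra hcon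
      push Not at hcon
      exact hu (funext hcon)
    refine Finset.prod_eq_zero (Finset.mem_univ i) ?_
    have : ∀ v : ZMod 2, v ≠ 0 → ∑ b : ZMod 2, sg (b * v) = 0 := by decide
    exact this _ hi

/-- the number of nonzero coordinates -/
def wt {n : ℕ} (x : Fin n → ZMod 2) : ℕ := (Finset.univ.filter (fun i => x i ≠ 0)).card

theorem sum_sg {n : ℕ} (x : Fin n → ZMod 2) : ∑ j, sg (x j) = (n : ℤ) - 2 * (wt x : ℤ) := by
  have h1 : ∀ j, sg (x j) = 1 - 2 * (if x j ≠ 0 then (1 : ℤ) else 0) := by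
    intro j
    have : ∀ b : ZMod 2, sg b = 1 - 2 * (if b ≠ 0 then (1 : ℤ) else 0) := by decide
    exact this _
  rw [Finset.sum_congr rfl (fun j _ => h1 j), Finset.sum_sub_distrib, ← Finset.mul_sum,
    Finset.sum_boole]
  simp [wt]

theorem wt_add_le {n : ℕ} (x y : Fin n → ZMod 2) : wt (x + y) ≤ wt x + wt y := by
  unfold wt
  refine le_trans (Finset.card_le_card ?_) (Finset.card_union_le _ _)
  intro i hi
  simp only [Finset.mem_filter, Finset.mem_univ, true_and, Finset.mem_union, Pi.add_apply] at hi ⊢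
  by_contra hcon
  push Not at hcon
  exact hi (by rw [hcon.1, hcon.2, add_zero])

/-- Parseval -/
theorem parseval {m n : ℕ} (e : Fin n → (Fin m → ZMod 2)) (he : Function.Injective e)
    (f : Fin n → ZMod 2) :
    ∑ a : Fin m → ZMod 2, (∑ j, sg (f j + dot a (e j))) ^ 2 = 2 ^ m * (n : ℤ) := by
  classical
  have h1 : ∀ a : Fin m → ZMod 2, (∑ j, sg (f j + dot a (e j))) ^ 2
      = ∑ j, ∑ l, sg (f j) * sg (f l) * sg (dot a (e j + e l)) := by
    intro a
    rw [sq, Finset.sum_mul_sum]
    refine Finset.sum_congr rfl (fun j _ => Finset.sum_congr rfl (fun l _ => ?_))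
    rw [sg_add, sg_add, dot_add, sg_add]
    ring
  rw [Finset.sum_congr rfl (fun a _ => h1 a), Finset.sum_comm]
  have h2 : ∀ j : Fin n, ∑ a : Fin m → ZMod 2, ∑ l, sg (f j) * sg (f l) * sg (dot a (e j + e l))
      = 2 ^ m := by
    intro j
    rw [Finset.sum_comm]
    have h3 : ∀ l : Fin n, ∑ a : Fin m → ZMod 2, sg (f j) * sg (f l) * sg (dot a (e j + e l))
        = if l = j then 2 ^ m else 0 := by
      intro l
      rw [← Finset.mul_sum, char_sum]
      by_cases hlj : l = j
      · subst hlj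
        have h0 : e l + e l = 0 := by
          funext i
          exact CharTwo.add_self_eq_zero (e l i)
        rw [if_pos h0, if_pos rfl, sg_mul_self, one_mul]
      · have h0 : e j + e l ≠ 0 := by
          intro h
          apply hlj
          apply he
          funext i
          have h4 := congrFun h i
          simp only [Pi.add_apply, Pi.zero_apply] at h4
          have : ∀ p q : ZMod 2, p + q = 0 → q = p := by decide
          exact this _ _ h4
        rw [if_neg h0, if_neg hlj, mul_zero]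
    rw [Finset.sum_congr rfl (fun l _ => h3 l)]
    simp
  rw [Finset.sum_congr rfl (fun j _ => h2 j)]
  simp [mul_comm]

/-- every coset of `V` contains a vector of weight at least `dim V` -/
theorem exists_heavy {n : ℕ} (x : Fin n → ZMod 2) (V : Submodule (ZMod 2) (Fin n → ZMod 2)) :
    ∃ v ∈ V, finrank (ZMod 2) V ≤ wt (x + v) := by
  classical
  -- choose `v` with `wt (x + v)` maximal
  obtain ⟨v, hv, hmax⟩ : ∃ v ∈ V, ∀ w ∈ V, wt (x + w) ≤ wt (x + v) := by
    obtain ⟨v, hv⟩ := Set.exists_max_image (V : Set (Fin n → ZMod 2)) (fun w => wt (x + w))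
      (Set.toFinite _) ⟨0, V.zero_mem⟩
    exact ⟨v, hv.1, hv.2⟩
  refine ⟨v, hv, ?_⟩
  by_contra hlt
  push Not at hlt
  -- the projection onto the support of `x + v`
  let N : Finset (Fin n) := Finset.univ.filter (fun i => (x + v) i ≠ 0)
  let φ : V →ₗ[ZMod 2] (N → ZMod 2) :=
    (LinearMap.funLeft (ZMod 2) (ZMod 2) (fun i : N => (i : Fin n))).comp V.subtype
  have hker : LinearMap.ker φ ≠ ⊥ := by
    apply LinearMap.ker_ne_bot_of_finrank_lt
    rw [Module.finrank_fintype_fun_eq_card, Fintype.card_coe]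
    exact hlt
  obtain ⟨w, hw, hw0⟩ := (Submodule.ne_bot_iff _).1 hker
  have hwN : ∀ i, (x + v) i ≠ 0 → (w : Fin n → ZMod 2) i = 0 := by
    intro i hi
    have h1 : φ w = 0 := hw
    have h2 := congrFun h1 ⟨i, by simp [N]; exact hi⟩
    exact h2
  have hw1 : (w : Fin n → ZMod 2) ≠ 0 := fun h => hw0 (Subtype.ext h)
  obtain ⟨i₀, hi₀⟩ : ∃ i, (w : Fin n → ZMod 2) i ≠ 0 := by
    by_contra hcon
    push Not at hcon
    exact hw1 (funext hcon)
  have hlt2 : wt (x + v) < wt (x + (v + (w : Fin n → ZMod 2))) := by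
    unfold wt
    apply Finset.card_lt_card
    rw [Finset.ssubset_iff_of_subset]
    · refine ⟨i₀, ?_, ?_⟩
      · simp only [Finset.mem_filter, Finset.mem_univ, true_and]
        have h3 : (x + v) i₀ = 0 := by
          by_contra h
          exact hi₀ (hwN i₀ h)
        rw [← add_assoc, Pi.add_apply, h3, zero_add]
        exact hi₀
      · simp only [Finset.mem_filter, Finset.mem_univ, true_and, not_not]
        by_contra h
        exact hi₀ (hwN i₀ h)
    · intro i hi
      simp only [Finset.mem_filter, Finset.mem_univ, true_and] at hi ⊢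
      rw [← add_assoc, Pi.add_apply, hwN i hi, add_zero]
      exact hi
  exact absurd (hmax (v + w) (V.add_mem hv w.2)) (not_le.2 hlt2)

/-- The construction: `n = 4^k`, an additive complement of size `2 * 4^k`, and every coset inside `A + A`
has codimension at least `2^k`. -/
theorem main (k : ℕ) : ∃ (A : Set (Fin (4 ^ k) → ZMod 2)) (S : Finset (Fin (4 ^ k) → ZMod 2)),
    S.card = 2 * 4 ^ k ∧ A + (S : Set (Fin (4 ^ k) → ZMod 2)) = Set.univ ∧
    ∀ (x : Fin (4 ^ k) → ZMod 2) (V : Submodule (ZMod 2) (Fin (4 ^ k) → ZMod 2)),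
      x +ᵥ (V : Set (Fin (4 ^ k) → ZMod 2)) ⊆ A + A →
        finrank (ZMod 2) V + 2 ^ k ≤ 4 ^ k := by
  classical
  have hcard : Fintype.card (Fin (4 ^ k)) = Fintype.card (Fin (2 * k) → ZMod 2) := by
    rw [Fintype.card_fin, Fintype.card_fun, ZMod.card, Fintype.card_fin, pow_mul]
    norm_num
  let e : Fin (4 ^ k) ≃ (Fin (2 * k) → ZMod 2) := Fintype.equivOfCardEq hcard
  let aff : (Fin (2 * k) → ZMod 2) × ZMod 2 → (Fin (4 ^ k) → ZMod 2) :=
    fun p j => dot p.1 (e j) + p.2
  have haff : Function.Injective aff := by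
    rintro ⟨a, c⟩ ⟨a', c'⟩ h
    have h0 : c = c' := by
      have h1 := congrFun h (e.symm 0)
      simpa [aff, dot] using h1
    subst h0
    have h2 : a = a' := by
      funext i
      have h1 := congrFun h (e.symm (Pi.single i 1))
      simpa [aff, dot, Pi.single_apply] using h1
    rw [h2]
  let A : Set (Fin (4 ^ k) → ZMod 2) := {x | 2 * wt x + 2 ^ k ≤ 4 ^ k}
  let S : Finset (Fin (4 ^ k) → ZMod 2) := Finset.univ.image aff
  refine ⟨A, S, ?_, ?_, ?_⟩
  · rw [Finset.card_image_of_injective _ haff, Finset.card_univ, Fintype.card_prod, ZMod.card,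
      ← hcard, Fintype.card_fin, mul_comm]
  · rw [Set.eq_univ_iff_forall]
    intro f
    -- some Walsh coefficient is large
    obtain ⟨a, ha⟩ : ∃ a : Fin (2 * k) → ZMod 2,
        ((4 : ℤ) ^ k) ≤ (∑ j, sg (f j + dot a (e j))) ^ 2 := by
      by_contra hcon
      push Not at hcon
      have h1 := parseval (fun j => e j) e.injective f
      have h2 : ∑ a : Fin (2 * k) → ZMod 2, (∑ j, sg (f j + dot a (e j))) ^ 2
          < ∑ _a : Fin (2 * k) → ZMod 2, (4 : ℤ) ^ k := by
        apply Finset.sum_lt_sum_of_nonempty Finset.univ_nonempty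
        intro a _
        exact hcon a
      rw [h1] at h2
      rw [Finset.sum_const, Finset.card_univ, ← hcard, Fintype.card_fin] at h2
      have h3 : (2 : ℤ) ^ (2 * k) = 4 ^ k := by rw [pow_mul]; norm_num
      rw [h3] at h2
      simp at h2
    have h2k : ((2 : ℤ) ^ k) ^ 2 = 4 ^ k := by rw [← pow_mul, mul_comm, pow_mul]; norm_num
    have habs : (2 : ℤ) ^ k ≤ |∑ j, sg (f j + dot a (e j))| := by
      rw [← h2k] at ha
      have := sq_le_sq.1 ha
      rwa [abs_of_nonneg (by positivity : (0 : ℤ) ≤ 2 ^ k)] at this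
    obtain ⟨c, hc⟩ : ∃ c : ZMod 2, (2 : ℤ) ^ k ≤ ∑ j, sg (f j + (dot a (e j) + c)) := by
      rcases abs_cases (∑ j, sg (f j + dot a (e j))) with ⟨h, _⟩ | ⟨h, _⟩
      · refine ⟨0, ?_⟩
        simp only [add_zero]
        rw [← h]; exact habs
      · refine ⟨1, ?_⟩
        have h3 : ∀ b : ZMod 2, sg (b + 1) = - sg b := by decide
        have h4 : ∑ j, sg (f j + (dot a (e j) + 1)) = - ∑ j, sg (f j + dot a (e j)) := by
          rw [← Finset.sum_neg_distrib]
          refine Finset.sum_congr rfl (fun j _ => ?_)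
          rw [← add_assoc, h3]
        rw [h4, ← h]; exact habs
    refine ⟨f + aff (a, c), ?_, aff (a, c), ?_, ?_⟩
    · have h5 : ∑ j, sg ((f + aff (a, c)) j) = ((4 ^ k : ℕ) : ℤ) - 2 * (wt (f + aff (a, c)) : ℤ) :=
        sum_sg _
      have h6 : ∑ j, sg ((f + aff (a, c)) j) = ∑ j, sg (f j + (dot a (e j) + c)) := rfl
      show 2 * wt (f + aff (a, c)) + 2 ^ k ≤ 4 ^ k
      have h7 : ((2 * wt (f + aff (a, c)) + 2 ^ k : ℕ) : ℤ) ≤ ((4 ^ k : ℕ) : ℤ) := by
        push_cast
        push_cast at h5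
        linarith
      exact_mod_cast h7
    · simp only [S, Finset.coe_image, Finset.coe_univ, Set.image_univ]
      exact ⟨(a, c), rfl⟩
    · show f + aff (a, c) + aff (a, c) = f
      rw [add_assoc]
      have h8 : aff (a, c) + aff (a, c) = 0 := by
        funext i
        exact CharTwo.add_self_eq_zero (aff (a, c) i)
      rw [h8, add_zero]
  · intro x V hV
    obtain ⟨v, hv, hw⟩ := exists_heavy x V
    have h1 : x + v ∈ A + A := hV ⟨v, hv, rfl⟩
    obtain ⟨p, hp, q, hq, hpq⟩ := h1
    have hp' : 2 * wt p + 2 ^ k ≤ 4 ^ k := hp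
    have hq' : 2 * wt q + 2 ^ k ≤ 4 ^ k := hq
    have h2 : wt (x + v) ≤ wt p + wt q := by
      have : p + q = x + v := hpq
      rw [← this]
      exact wt_add_le p q
    omega

end Pool.Agent.Y430.AddCompl
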